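import Pool.Agent.Work.MP_499dc6_lc.Deg.Mean

set_option autoImplicit false
set_option linter.unusedSectionVars false

/-! The lower bound for the number of products needed for the permanent. -/

namespace Pool.Agent.Work.MP_499dc6_lc.Deg

open MvPolynomial Submodule

/-- The space spanned by `1` and the variables. -/
noncomputable def L0 (σ : Type*) : Submodule ℂ (MvPolynomial σ ℂ) :=
  span ℂ (insert 1 (Set.range X))

theorem one_mem_L0 {σ : Type*} : (1 : MvPolynomial σ ℂ) ∈ L0 σ :=
  subset_span (Set.mem_insert _ _)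

theorem X_mem_L0 {σ : Type*} (v : σ) : (X v : MvPolynomial σ ℂ) ∈ L0 σ :=
  subset_span (Set.mem_insert_of_mem _ ⟨v, rfl⟩)

theorem pderiv_L0 {σ : Type*} (v : σ) : ∀ l ∈ L0 σ, pderiv v l ∈
    (1 : Submodule ℂ (MvPolynomial σ ℂ)) := by
  classical
  intro l hl
  unfold L0 at hl
  induction hl using span_induction with
  | mem x hx =>
    rcases hx with rfl | ⟨w, rfl⟩
    · rw [Derivation.map_one_eq_zero]
      exact zero_mem _
    · rw [pderiv_X]
      by_cases h : w = v
      · subst h
        rw [Pi.single_eq_same]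
        exact Submodule.one_le.1 le_rfl
      · rw [Pi.single_eq_of_ne h]
        exact zero_mem _
  | zero => rw [map_zero]; exact zero_mem _
  | add x y _ _ hx hy => rw [map_add]; exact add_mem hx hy
  | smul c x _ hx => rw [Derivation.map_smul]; exact Submodule.smul_mem _ c hx

section Perm

variable {T : Type} [DecidableEq T] [Fintype T]

/-- The permanent of the generic matrix. -/
noncomputable def permPoly (T : Type) [DecidableEq T] [Fintype T] : MvPolynomial (T × T) ℂ :=
  Matrix.permanent (Matrix.of fun i j => X (i, j))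

theorem permPoly_eq : permPoly T = ∑ σ : Equiv.Perm T, ∏ i, X (σ i, i) := rfl

theorem pderiv_prod_perm (σ : Equiv.Perm T) (c0 r0 : T) :
    pderiv (c0, r0) (∏ i, X (σ i, i) : MvPolynomial (T × T) ℂ) =
      if σ r0 = c0 then ∏ i ∈ Finset.univ.erase r0, X (σ i, i) else 0 := by
  rw [← Finset.mul_prod_erase Finset.univ (fun i => (X (σ i, i) : MvPolynomial (T × T) ℂ))
    (Finset.mem_univ r0), Derivation.leibniz]
  have h1 : pderiv (c0, r0) (∏ i ∈ Finset.univ.erase r0, X (σ i, i) :
      MvPolynomial (T × T) ℂ) = 0 := by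
    apply Finset.prod_induction _ (fun p => pderiv (c0, r0) p = 0)
    · intro p q hp hq
      rw [Derivation.leibniz, hp, hq, smul_zero, smul_zero, add_zero]
    · exact Derivation.map_one_eq_zero _
    · intro i hi
      rw [pderiv_X, Pi.single_eq_of_ne]
      intro h
      exact Finset.ne_of_mem_erase hi (Prod.mk.inj h).2
  rw [h1, smul_zero, zero_add, pderiv_X]
  by_cases h : σ r0 = c0
  · rw [if_pos h, h, Pi.single_eq_same, smul_eq_mul, mul_one]
  · rw [if_neg h, Pi.single_eq_of_ne, smul_zero]
    intro h'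
    exact h (Prod.mk.inj h').1

theorem pderiv_permPoly (c0 r0 : T) :
    pderiv (c0, r0) (permPoly T) =
      ∑ σ : Equiv.Perm T, if σ r0 = c0 then ∏ i ∈ Finset.univ.erase r0, X (σ i, i) else 0 := by
  rw [permPoly_eq, map_sum]
  exact Finset.sum_congr rfl fun σ _ => pderiv_prod_perm σ c0 r0

/-- The derivative of the permanent as a squarefree coefficient. -/
theorem aeval_pderiv {R : Type} [CommRing R] [Algebra ℂ R] (M : T → T → R) (c0 r0 : T) :
    aeval (fun p : T × T => M p.2 p.1) (pderiv (c0, r0) (permPoly T)) =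
      sf (∏ i ∈ Finset.univ.erase r0, ∑ j, C (M i j) * X j) (Finset.univ.erase c0) := by
  rw [pderiv_permPoly, map_sum]
  let M' : T → T → R := fun i j => if i = r0 then (if j = c0 then 1 else 0) else M i j
  have h1 : ∀ σ : Equiv.Perm T, aeval (fun p : T × T => M p.2 p.1)
      (if σ r0 = c0 then ∏ i ∈ Finset.univ.erase r0, X (σ i, i) else 0 :
        MvPolynomial (T × T) ℂ) = ∏ i, M' i (σ i) := by
    intro σ
    rw [← Finset.mul_prod_erase Finset.univ (fun i => M' i (σ i)) (Finset.mem_univ r0)]
    have h2 : ∏ i ∈ Finset.univ.erase r0, M' i (σ i) =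
        ∏ i ∈ Finset.univ.erase r0, M i (σ i) := by
      apply Finset.prod_congr rfl
      intro i hi
      show (if i = r0 then (if σ i = c0 then 1 else 0) else M i (σ i)) = M i (σ i)
      rw [if_neg (Finset.ne_of_mem_erase hi)]
    have h3 : M' r0 (σ r0) = if σ r0 = c0 then 1 else 0 := by
      show (if r0 = r0 then (if σ r0 = c0 then (1 : R) else 0) else M r0 (σ r0)) = _
      rw [if_pos rfl]
    rw [h2, h3]
    split_ifs with h
    · rw [map_prod, one_mul]
      apply Finset.prod_congr rfl
      intro i _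
      rw [aeval_X]
    · rw [map_zero, zero_mul]
  rw [Finset.sum_congr rfl (fun σ _ => h1 σ), perm_eq_sf,
    ← Finset.mul_prod_erase Finset.univ (fun i => ∑ j, (C (M' i j) * X j : MvPolynomial T R))
      (Finset.mem_univ r0)]
  have h4 : (∑ j, (C (M' r0 j) * X j : MvPolynomial T R)) = X c0 := by
    rw [Finset.sum_eq_single c0]
    · show C (if r0 = r0 then (if c0 = c0 then (1 : R) else 0) else M r0 c0) * X c0 = X c0
      simp
    · intro j _ hj
      show C (if r0 = r0 then (if j = c0 then (1 : R) else 0) else M r0 j) * X j = 0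
      simp [hj]
    · intro h; exact absurd (Finset.mem_univ c0) h
  have h5 : ∏ i ∈ Finset.univ.erase r0, ∑ j, (C (M' i j) * X j : MvPolynomial T R) =
      ∏ i ∈ Finset.univ.erase r0, ∑ j, C (M i j) * X j := by
    apply Finset.prod_congr rfl
    intro i hi
    apply Finset.sum_congr rfl
    intro j _
    show C (if i = r0 then (if j = c0 then 1 else 0) else M i j) * X j = C (M i j) * X j
    rw [if_neg (Finset.ne_of_mem_erase hi)]
  rw [h4, h5, sf_X_mul, if_pos (Finset.mem_univ c0)]

end Perm

variable {b m k : ℕ}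

theorem prod_rows {κ : ℕ} (gv : Fin k → ℂ)
    (hgv : ∀ {A : Type} [CommRing A] [IsDomain A] [Algebra ℂ A] (x y : A),
      ∏ c, (x + algebraMap ℂ A (gv c) * y) = x ^ k - y ^ κ * x ^ (k - κ)) (i0 : Fin b) :
    (∏ i ∈ Finset.univ.erase (Sum.inl i0 : Idx b m k), ∑ j, C (entry gv i j) * X j :
      MvPolynomial (Idx b m k) (PR b m k)) =
      (∏ i ∈ Finset.univ.erase i0, (vrow i + Zs (Glob b m k))) * Qp b m k κ Finset.univ := by
  have h1 : (Finset.univ.erase (Sum.inl i0 : Idx b m k)) =
      (Finset.univ.erase i0).disjSum Finset.univ := by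
    ext t
    cases t with
    | inl i => simp
    | inr p => simp
  rw [h1, Finset.prod_disjSum]
  congr 1
  · apply Finset.prod_congr rfl
    intro i _
    exact row_inl gv i
  · exact prod_local gv hgv

/-- The indices of the generators of the ideal. -/
abbrev Gen (b m k : ℕ) := (Fin m × Finset (Fin k)) ⊕ (Fin b × (Fin m × ℕ))

/-- The generators of the ideal. -/
noncomputable def gen : Gen b m k → PR b m k
  | Sum.inl q => gD Finset.univ (q.2.map ⟨fun c : Fin k => Sum.inr (q.1, c), fun x y h => by
      simpa using h⟩)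
  | Sum.inr q => es (vf q.1) q.2.2 (Grp b q.2.1)

/-- The degrees of the generators. -/
def genDeg : Gen b m k → ℕ
  | Sum.inl q => q.2.card
  | Sum.inr q => q.2.2

/-- The generators used. -/
def genSet (b m k κ : ℕ) : Finset (Gen b m k) :=
  (Finset.univ.filter (fun q : Fin m × Finset (Fin k) => 1 ≤ q.2.card)).disjSum
    (Finset.univ ×ˢ (Finset.univ ×ˢ Finset.Icc 1 (κ - 1)))

theorem card_genSet (κ : ℕ) : (genSet b m k κ).card ≤ m * 2 ^ k + b * (m * (κ - 1)) := by
  unfold genSet
  rw [Finset.card_disjSum]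
  apply Nat.add_le_add
  · refine (Finset.card_filter_le _ _).trans ?_
    simp
  · simp

theorem isHomogeneous_vf (i : Fin b) (t : Idx b m k) : (vf i t : PR b m k).IsHomogeneous 1 := by
  cases t with
  | inl g => exact isHomogeneous_zero _ _ _
  | inr p => exact isHomogeneous_X _ _

theorem isHomogeneous_sf_prod (A : Finset (Fin b)) :
    ∀ D : Finset (Idx b m k), (sf (∏ i ∈ A, vrow i) D : PR b m k).IsHomogeneous A.card := by
  classical
  induction A using Finset.induction_on with
  | empty =>
    intro D
    rw [Finset.prod_empty, sf_one]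
    split_ifs
    · exact isHomogeneous_one _ _
    · exact isHomogeneous_zero _ _ _
  | insert i A hi ih =>
    intro D
    rw [Finset.prod_insert hi, Finset.card_insert_of_notMem hi]
    nth_rewrite 1 [vrow]
    rw [sf_sum_X_mul]
    apply IsHomogeneous.sum
    intro t _
    rw [add_comm]
    exact (isHomogeneous_vf i t).mul (ih _)

theorem isHomogeneous_gD (s : Finset (Fin b)) (D : Finset (Idx b m k)) :
    (gD s D : PR b m k).IsHomogeneous D.card := by
  unfold gD
  rw [sf_prod_one_add]
  apply IsHomogeneous.sum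
  intro A hA
  rw [← (Finset.mem_powersetCard.1 hA).2]
  exact isHomogeneous_sf_prod A D

theorem isHomogeneous_es (i : Fin b) (j : ℕ) (S : Finset (Idx b m k)) :
    (es (vf i) j S : PR b m k).IsHomogeneous j := by
  unfold es
  apply IsHomogeneous.sum
  intro D hD
  have h := IsHomogeneous.prod D (vf i : Idx b m k → PR b m k) (fun _ => 1)
    (fun t _ => isHomogeneous_vf i t)
  rw [Finset.sum_const, smul_eq_mul, mul_one, (Finset.mem_powersetCard.1 hD).2] at h
  exact h

theorem gen_homogeneous (κ : ℕ) : ∀ q ∈ genSet b m k κ,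
    (gen q : PR b m k).IsHomogeneous (genDeg q) ∧ 0 < genDeg q := by
  intro q hq
  unfold genSet at hq
  rw [Finset.mem_disjSum] at hq
  rcases hq with ⟨q, hq, rfl⟩ | ⟨q, hq, rfl⟩
  · refine ⟨?_, ?_⟩
    · have := isHomogeneous_gD (b := b) Finset.univ (q.2.map ⟨fun c : Fin k =>
        (Sum.inr (q.1, c) : Idx b m k), fun x y h => by simpa using h⟩)
      rw [Finset.card_map] at this
      exact this
    · exact (Finset.mem_filter.1 hq).2
  · refine ⟨isHomogeneous_es _ _ _, ?_⟩
    simp only [Finset.mem_product, Finset.mem_univ, true_and, Finset.mem_Icc] at hq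
    exact hq.1

end Pool.Agent.Work.MP_499dc6_lc.Deg
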