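import Mathlib

set_option autoImplicit false

/-! The definition of an arithmetic circuit over `ℂ` used in the lower bounds. -/

namespace Pool.Agent.Work.MP_499dc6_lc.Deg

open MvPolynomial

/-- `IsCircuit f N`: the polynomials `f 0, f 1, …, f (s - 1)` are computed by the gates of an
arithmetic circuit over `ℂ` (in a topological order) and `N` contains all multiplication gates.
Every gate is a constant, a variable, a linear combination of two earlier gates, or, if it
belongs to `N`, a product of two earlier gates. -/
def IsCircuit {σ : Type*} {s : ℕ} (f : Fin s → MvPolynomial σ ℂ) (N : Finset (Fin s)) : Prop :=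
  ∀ t : Fin s, (∃ c : ℂ, f t = C c) ∨ (∃ i : σ, f t = X i) ∨
    (∃ a < t, ∃ b < t, ∃ α β : ℂ, f t = C α * f a + C β * f b) ∨
    (t ∈ N ∧ ∃ a < t, ∃ b < t, f t = f a * f b)

/-- The polynomial `p` is computed by an arithmetic circuit with at most `S` multiplication
gates. -/
def ComputedWith {σ : Type*} (p : MvPolynomial σ ℂ) (S : ℕ) : Prop :=
  ∃ (s : ℕ) (f : Fin s → MvPolynomial σ ℂ) (N : Finset (Fin s)),
    IsCircuit f N ∧ N.card ≤ S ∧ ∃ o : Fin s, f o = p

end Pool.Agent.Work.MP_499dc6_lc.Deg
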