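import Pool.Agent.Work.MP_499dc6_lc.Deg.Sf
import Pool.Agent.Work.MP_499dc6_lc.Bd.B01

set_option autoImplicit false
set_option linter.unusedSectionVars false
set_option linter.unreachableTactic false
set_option linter.unusedTactic false

/-! The gadget matrix and the leading forms of the derivatives of its permanent. -/

namespace Pool.Agent.Work.MP_499dc6_lc.Deg

open MvPolynomial

/-- Roots of unity followed by zeros. -/
theorem exists_gv {κ k : ℕ} (hκ : 0 < κ) (hk : κ ≤ k) : ∃ gv : Fin k → ℂ,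
    ∀ {A : Type} [CommRing A] [IsDomain A] [Algebra ℂ A] (x y : A),
      ∏ c, (x + algebraMap ℂ A (gv c) * y) = x ^ k - y ^ κ * x ^ (k - κ) := by
  classical
  obtain ⟨t, rfl⟩ := Nat.exists_eq_add_of_le hk
  have hζ : IsPrimitiveRoot (Complex.exp (2 * Real.pi * Complex.I / κ)) κ :=
    Complex.isPrimitiveRoot_exp κ (by omega)
  have hcard : (Polynomial.nthRootsFinset κ (1 : ℂ)).card = κ := hζ.card_nthRootsFinset
  let e : Fin κ ≃ Polynomial.nthRootsFinset κ (1 : ℂ) :=
    (Finset.equivFinOfCardEq hcard).symm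
  refine ⟨Fin.append (fun i => - (e i : ℂ)) (fun _ => 0), ?_⟩
  intro A _ _ _ x y
  rw [Fin.prod_univ_add]
  simp only [Fin.append_left, Fin.append_right, map_zero, zero_mul, add_zero, Finset.prod_const,
    Finset.card_univ, Fintype.card_fin, map_neg, neg_mul]
  have h1 : ∏ i : Fin κ, (x + -(algebraMap ℂ A (e i) * y)) =
      ∏ μ ∈ Polynomial.nthRootsFinset κ (1 : ℂ), (x - algebraMap ℂ A μ * y) := by
    rw [← Finset.prod_coe_sort (Polynomial.nthRootsFinset κ (1 : ℂ))
      (fun μ => x - algebraMap ℂ A μ * y)]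
    rw [← e.prod_comp (fun μ => x - algebraMap ℂ A (μ : ℂ) * y)]
    apply Finset.prod_congr rfl
    intro i _
    ring
  have hinj : Function.Injective (algebraMap ℂ A) := (algebraMap ℂ A).injective
  have hζ' : IsPrimitiveRoot (algebraMap ℂ A (Complex.exp (2 * Real.pi * Complex.I / κ))) κ :=
    hζ.map_of_injective hinj
  have h2 : (Polynomial.nthRootsFinset κ (1 : ℂ)).image (algebraMap ℂ A) =
      Polynomial.nthRootsFinset κ (1 : A) := by
    apply Finset.eq_of_subset_of_card_le
    · intro z hz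
      obtain ⟨μ, hμ, rfl⟩ := Finset.mem_image.1 hz
      rw [Polynomial.mem_nthRootsFinset hκ] at hμ ⊢
      rw [← map_pow, hμ, map_one]
    · rw [Finset.card_image_of_injective _ hinj, hcard, hζ'.card_nthRootsFinset]
  have h3 : ∏ μ ∈ Polynomial.nthRootsFinset κ (1 : ℂ), (x - algebraMap ℂ A μ * y) =
      x ^ κ - y ^ κ := by
    rw [hζ'.pow_sub_pow_eq_prod_sub_mul x y hκ, ← h2,
      Finset.prod_image (fun a _ b _ h => hinj h)]
  rw [h1, h3, Nat.add_sub_cancel_left, pow_add]
  ring

variable {b m k : ℕ}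

/-- The positions of the free variables. -/
abbrev Pos (b m k : ℕ) := Fin b × (Fin m × Fin k)

/-- The index type of rows and columns of the gadget. -/
abbrev Idx (b m k : ℕ) := Fin b ⊕ (Fin m × Fin k)

/-- The ring of polynomials in the free variables. -/
abbrev PR (b m k : ℕ) := MvPolynomial (Pos b m k) ℂ

/-- The entries of the gadget matrix. -/
noncomputable def entry (gv : Fin k → ℂ) : Idx b m k → Idx b m k → PR b m k
  | Sum.inl _, Sum.inl _ => 1
  | Sum.inl i, Sum.inr p => X (i, p)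
  | Sum.inr q, Sum.inl _ => C (gv q.2)
  | Sum.inr q, Sum.inr p => if q.1 = p.1 then 1 else 0

/-- The coefficients of the variable part of a row. -/
noncomputable def vf (i : Fin b) : Idx b m k → PR b m k
  | Sum.inl _ => 0
  | Sum.inr p => X (i, p)

/-- The variable part of a row. -/
noncomputable def vrow (i : Fin b) : MvPolynomial (Idx b m k) (PR b m k) :=
  ∑ t, C (vf i t) * X t

/-- The global columns. -/
def Glob (b m k : ℕ) : Finset (Idx b m k) := Finset.univ.map Function.Embedding.inl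

/-- The columns of group `J`. -/
def Grp (b : ℕ) {m k : ℕ} (J : Fin m) : Finset (Idx b m k) :=
  Finset.univ.map ⟨fun c : Fin k => Sum.inr (J, c), fun x y h => by simpa using h⟩

theorem mem_Glob (t : Idx b m k) : t ∈ Glob b m k ↔ ∃ g, t = Sum.inl g := by
  simp [Glob, eq_comm]

theorem mem_Grp (J : Fin m) (t : Idx b m k) : t ∈ Grp b J ↔ ∃ c, t = Sum.inr (J, c) := by
  unfold Grp
  rw [Finset.mem_map]
  constructor
  · rintro ⟨c, _, h⟩
    exact ⟨c, h.symm⟩
  · rintro ⟨c, h⟩
    exact ⟨c, Finset.mem_univ _, h.symm⟩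

theorem card_Glob : (Glob b m k).card = b := by simp [Glob]

theorem card_Grp (J : Fin m) : (Grp b J : Finset (Idx b m k)).card = k := by simp [Grp]

theorem row_inl (gv : Fin k → ℂ) (i : Fin b) :
    (∑ j, C (entry gv (Sum.inl i : Idx b m k) j) * X j : MvPolynomial (Idx b m k) (PR b m k)) =
      vrow i + Zs (Glob b m k) := by
  unfold vrow Zs Glob
  rw [Finset.sum_map, Fintype.sum_sum_type, Fintype.sum_sum_type]
  simp [entry, vf, add_comm]

theorem row_inr (gv : Fin k → ℂ) (J : Fin m) (c : Fin k) :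
    (∑ j, C (entry gv (Sum.inr (J, c) : Idx b m k) j) * X j :
      MvPolynomial (Idx b m k) (PR b m k)) =
      Zs (Grp b J) + algebraMap ℂ _ (gv c) * Zs (Glob b m k) := by
  unfold Zs Glob Grp
  rw [Finset.sum_map, Finset.sum_map, Fintype.sum_sum_type, Fintype.sum_prod_type]
  simp only [entry, Finset.mul_sum]
  rw [add_comm]
  congr 1
  rw [Finset.sum_eq_single J]
  · simp <;> rfl
  · intro J' _ hJ'
    simp [Ne.symm hJ']
  · intro h; exact absurd (Finset.mem_univ J) h

/-- The product of the local rows. -/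
theorem prod_local {κ : ℕ} (gv : Fin k → ℂ)
    (hgv : ∀ {A : Type} [CommRing A] [IsDomain A] [Algebra ℂ A] (x y : A),
      ∏ c, (x + algebraMap ℂ A (gv c) * y) = x ^ k - y ^ κ * x ^ (k - κ)) :
    (∏ q : Fin m × Fin k, ∑ j, C (entry gv (Sum.inr q : Idx b m k) j) * X j :
      MvPolynomial (Idx b m k) (PR b m k)) =
      ∏ J : Fin m, (Zs (Grp b J) ^ k - Zs (Glob b m k) ^ κ * Zs (Grp b J) ^ (k - κ)) := by
  rw [Fintype.prod_prod_type]
  apply Finset.prod_congr rfl
  intro J _
  rw [← hgv (Zs (Grp b J)) (Zs (Glob b m k))]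
  apply Finset.prod_congr rfl
  intro c _
  exact row_inr gv J c

/-- Once enough global columns are used, the second parts do not contribute. -/
theorem sf_drop {κ q : ℕ} (hκ : 0 < κ) (hq : b ≤ q) (S : Finset (Fin m)) :
    ∀ (P : MvPolynomial (Idx b m k) (PR b m k)) (D : Finset (Idx b m k)),
      sf (Zs (Glob b m k) ^ q * (P * ∏ J ∈ S, (Zs (Grp b J) ^ k -
        Zs (Glob b m k) ^ κ * Zs (Grp b J) ^ (k - κ)))) D =
      sf (Zs (Glob b m k) ^ q * (P * ∏ J ∈ S, Zs (Grp b J) ^ k)) D := by
  classical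
  induction S using Finset.induction_on with
  | empty => intro P D; simp
  | insert J S hJ ih =>
    intro P D
    rw [Finset.prod_insert hJ, Finset.prod_insert hJ]
    have h1 : Zs (Glob b m k) ^ q * (P * ((Zs (Grp b J) ^ k -
        Zs (Glob b m k) ^ κ * Zs (Grp b J) ^ (k - κ)) * ∏ J ∈ S, (Zs (Grp b J) ^ k -
        Zs (Glob b m k) ^ κ * Zs (Grp b J) ^ (k - κ)))) =
        Zs (Glob b m k) ^ q * ((P * Zs (Grp b J) ^ k) * ∏ J ∈ S, (Zs (Grp b J) ^ k -
        Zs (Glob b m k) ^ κ * Zs (Grp b J) ^ (k - κ))) +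
        -(Zs (Glob b m k) ^ (q + κ) * (P * Zs (Grp b J) ^ (k - κ) *
          ∏ J ∈ S, (Zs (Grp b J) ^ k - Zs (Glob b m k) ^ κ * Zs (Grp b J) ^ (k - κ)))) := by
      rw [pow_add]; ring
    have hcard : (D ∩ Glob b m k).card < q + κ := by
      calc (D ∩ Glob b m k).card ≤ (Glob b m k).card :=
            Finset.card_le_card Finset.inter_subset_right
        _ = b := card_Glob
        _ < q + κ := by omega
    rw [h1, sf_add, sf_neg, ih (P * Zs (Grp b J) ^ k) D,
      sf_Zs_pow_eq_zero (j := q + κ) _ hcard, neg_zero, add_zero, mul_assoc P]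

theorem Grp_disjoint {J J' : Fin m} (h : J ≠ J') :
    Disjoint (Grp b J : Finset (Idx b m k)) (Grp b J') := by
  rw [Finset.disjoint_left]
  intro t h1 h2
  obtain ⟨c, hc⟩ := (mem_Grp J t).1 h1
  obtain ⟨c', hc'⟩ := (mem_Grp J' t).1 h2
  rw [hc] at hc'
  simp only [Sum.inr.injEq, Prod.mk.injEq] at hc'
  exact h hc'.1

/-- Extraction of full groups. -/
theorem sf_groups (S : Finset (Fin m)) :
    ∀ (P : MvPolynomial (Idx b m k) (PR b m k)) (D : Finset (Idx b m k)),
      (∀ J ∈ S, Grp b J ⊆ D) →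
      sf ((∏ J ∈ S, Zs (Grp b J) ^ k) * P) D =
        (k.factorial : PR b m k) ^ S.card * sf P (D \ S.biUnion (fun J => Grp b J)) := by
  classical
  induction S using Finset.induction_on with
  | empty => intro P D _; simp
  | insert J S hJ ih =>
    intro P D hD
    rw [Finset.prod_insert hJ, mul_assoc, sf_Zs_pow_full _ (hD J (Finset.mem_insert_self _ _))
      (card_Grp J), ih]
    · rw [Finset.card_insert_of_notMem hJ, Finset.biUnion_insert, pow_succ', mul_assoc]
      congr 3
      ext t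
      simp only [Finset.mem_sdiff, Finset.mem_union]
      tauto
    · intro J' hJ'
      rw [Finset.subset_sdiff]
      refine ⟨hD J' (Finset.mem_insert_of_mem hJ'), Grp_disjoint ?_⟩
      rintro rfl
      exact hJ hJ'

/-- A product of variable parts only has coefficients on sets of the right size. -/
theorem sf_prod_vrow_eq_zero (A : Finset (Fin b)) :
    ∀ D : Finset (Idx b m k), A.card ≠ D.card → sf (∏ i ∈ A, vrow i) D = 0 := by
  classical
  induction A using Finset.induction_on with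
  | empty =>
    intro D hD
    rw [Finset.prod_empty, sf_one, if_neg]
    rintro rfl
    simp at hD
  | insert i A hi ih =>
    intro D hD
    rw [Finset.prod_insert hi]
    unfold vrow
    rw [sf_sum_X_mul]
    apply Finset.sum_eq_zero
    intro t ht
    have ht' : t ∈ D := (Finset.mem_inter.1 ht).1
    have := ih (D.erase t) (by
      rw [Finset.card_insert_of_notMem hi] at hD
      rw [Finset.card_erase_of_mem ht']
      have : 0 < D.card := Finset.card_pos.2 ⟨t, ht'⟩
      omega)
    unfold vrow at this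
    rw [this, mul_zero]

theorem vf_mem (i : Fin b) (t : Idx b m k) : vf i t ∈ idealOfVars (Pos b m k) ℂ := by
  cases t with
  | inl g => exact Ideal.zero_mem _
  | inr p => exact Ideal.subset_span ⟨(i, p), rfl⟩

/-- A product of `a` variable parts has coefficients of order at least `a`. -/
theorem sf_prod_vrow_mem (A : Finset (Fin b)) (P : MvPolynomial (Idx b m k) (PR b m k)) :
    ∀ D : Finset (Idx b m k),
      sf ((∏ i ∈ A, vrow i) * P) D ∈ idealOfVars (Pos b m k) ℂ ^ A.card := by
  classical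
  induction A using Finset.induction_on with
  | empty =>
    intro D
    rw [Finset.card_empty, pow_zero, Ideal.one_eq_top]
    exact trivial
  | insert i A hi ih =>
    intro D
    rw [Finset.prod_insert hi, mul_assoc, Finset.card_insert_of_notMem hi, pow_succ']
    nth_rewrite 1 [vrow]
    rw [sf_sum_X_mul]
    apply Ideal.sum_mem
    intro t _
    exact Ideal.mul_mem_mul (vf_mem i t) (ih _)

/-- The product of `1 + vrow i`. -/
theorem sf_prod_one_add (s : Finset (Fin b)) (D : Finset (Idx b m k)) :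
    sf (∏ i ∈ s, (1 + vrow i)) D = ∑ A ∈ s.powersetCard D.card, sf (∏ i ∈ A, vrow i) D := by
  classical
  have h1 : ∏ i ∈ s, (1 + vrow i : MvPolynomial (Idx b m k) (PR b m k)) =
      ∑ A ∈ s.powerset, ∏ i ∈ A, vrow i := by
    rw [Finset.prod_congr rfl (fun i _ => add_comm 1 (vrow i)), Finset.prod_add]
    simp
  rw [h1, sf_sum]
  symm
  apply Finset.sum_subset
  · intro A hA
    rw [Finset.mem_powerset]
    exact (Finset.mem_powersetCard.1 hA).1
  · intro A hA hA'
    apply sf_prod_vrow_eq_zero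
    intro hc
    exact hA' (Finset.mem_powersetCard.2 ⟨Finset.mem_powerset.1 hA, hc⟩)

theorem sum_powersetCard_compl {T M : Type*} [DecidableEq T] [AddCommMonoid M] (G : Finset T)
    (a c : ℕ) (h : a + c = G.card) (g : Finset T → M) :
    ∑ D ∈ G.powersetCard a, g (G \ D) = ∑ D ∈ G.powersetCard c, g D := by
  refine Finset.sum_bij' (fun D _ => G \ D) (fun D _ => G \ D) ?_ ?_ ?_ ?_ ?_
  · intro D hD
    rw [Finset.mem_powersetCard] at hD ⊢
    refine ⟨Finset.sdiff_subset, ?_⟩
    rw [Finset.card_sdiff_of_subset hD.1, hD.2]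
    omega
  · intro D hD
    rw [Finset.mem_powersetCard] at hD ⊢
    refine ⟨Finset.sdiff_subset, ?_⟩
    rw [Finset.card_sdiff_of_subset hD.1, hD.2]
    omega
  · intro D hD
    rw [Finset.mem_powersetCard] at hD
    exact Finset.sdiff_sdiff_eq_self hD.1
  · intro D hD
    rw [Finset.mem_powersetCard] at hD
    exact Finset.sdiff_sdiff_eq_self hD.1
  · intro D _; rfl

/-- The product of the local rows. -/
noncomputable def Qp (b m k κ : ℕ) (S : Finset (Fin m)) :
    MvPolynomial (Idx b m k) (PR b m k) :=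
  ∏ J ∈ S, (Zs (Grp b J) ^ k - Zs (Glob b m k) ^ κ * Zs (Grp b J) ^ (k - κ))

/-- The constant in front of the leading form. -/
def c1 (b m k κ : ℕ) : ℕ := b.factorial * k.factorial ^ (m - 1) * (k - κ).factorial

theorem Qp_split {κ : ℕ} (J0 : Fin m) : Qp b m k κ Finset.univ =
    (Zs (Grp b J0) ^ k - Zs (Glob b m k) ^ κ * Zs (Grp b J0) ^ (k - κ)) *
      Qp b m k κ (Finset.univ.erase J0) := by
  unfold Qp
  exact (Finset.mul_prod_erase Finset.univ (fun J => (Zs (Grp b J) ^ k -
    Zs (Glob b m k) ^ κ * Zs (Grp b J) ^ (k - κ) : MvPolynomial (Idx b m k) (PR b m k)))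
    (Finset.mem_univ J0)).symm

theorem alg_aux {A : Type*} [CommRing A] (V Z Y Q : A) (p κ k l : ℕ) :
    V * Z ^ p * ((Y ^ k - Z ^ κ * Y ^ l) * Q) =
      Y ^ k * (V * Z ^ p * Q) + -(Z ^ (p + κ) * ((V * Y ^ l) * Q)) := by
  rw [pow_add]
  ring

theorem term_reduce {κ : ℕ} (hκ : 0 < κ) (J0 : Fin m) (c : Fin k)
    (V : MvPolynomial (Idx b m k) (PR b m k)) {p : ℕ} (hp : b ≤ p + κ) :
    sf (V * Zs (Glob b m k) ^ p * Qp b m k κ Finset.univ) (Finset.univ.erase (Sum.inr (J0, c))) =
      - sf (Zs (Glob b m k) ^ (p + κ) * ((V * Zs (Grp b J0) ^ (k - κ)) *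
        ∏ J ∈ Finset.univ.erase J0, Zs (Grp b J) ^ k)) (Finset.univ.erase (Sum.inr (J0, c))) := by
  have hcard : ((Finset.univ.erase (Sum.inr (J0, c) : Idx b m k)) ∩ Grp b J0).card < k := by
    have h3 : (Finset.univ.erase (Sum.inr (J0, c) : Idx b m k)) ∩ Grp b J0 =
        (Grp b J0).erase (Sum.inr (J0, c)) := by
      ext t
      simp only [Finset.mem_inter, Finset.mem_erase, Finset.mem_univ, and_true]
    have h4 : (Sum.inr (J0, c) : Idx b m k) ∈ Grp b J0 := (mem_Grp J0 _).2 ⟨c, rfl⟩
    rw [h3, Finset.card_erase_of_mem h4, card_Grp]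
    have := c.2
    omega
  rw [Qp_split J0, alg_aux, sf_add, sf_neg, sf_Zs_pow_eq_zero _ hcard, zero_add]
  exact congrArg Neg.neg (sf_drop hκ hp (Finset.univ.erase J0) (V * Zs (Grp b J0) ^ (k - κ))
    (Finset.univ.erase (Sum.inr (J0, c))))

theorem term_small {κ : ℕ} (hκ : 0 < κ) (J0 : Fin m) (c : Fin k)
    (V : MvPolynomial (Idx b m k) (PR b m k)) {p : ℕ} (hp : b < p + κ) :
    sf (V * Zs (Glob b m k) ^ p * Qp b m k κ Finset.univ)
      (Finset.univ.erase (Sum.inr (J0, c))) = 0 := by
  rw [term_reduce hκ J0 c V hp.le, sf_Zs_pow_eq_zero, neg_zero]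
  calc _ ≤ (Glob b m k).card := Finset.card_le_card Finset.inter_subset_right
    _ = b := card_Glob
    _ < p + κ := hp

theorem term_main {κ : ℕ} (hκ : 0 < κ) (hk : κ ≤ k) (J0 : Fin m) (c : Fin k)
    (V : MvPolynomial (Idx b m k) (PR b m k)) {p : ℕ} (hp : p + κ = b) :
    sf (V * Zs (Glob b m k) ^ p * Qp b m k κ Finset.univ) (Finset.univ.erase (Sum.inr (J0, c))) =
      - ((c1 b m k κ : PR b m k) * ∑ D ∈ ((Grp b J0).erase (Sum.inr (J0, c))).powersetCard (κ - 1),
        sf V D) := by
  set G' : Finset (Idx b m k) := (Grp b J0).erase (Sum.inr (J0, c)) with hG'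
  have hmem : (Sum.inr (J0, c) : Idx b m k) ∈ Grp b J0 := (mem_Grp J0 _).2 ⟨c, rfl⟩
  have hG'card : G'.card = k - 1 := by
    rw [hG', Finset.card_erase_of_mem hmem, card_Grp]
  have hsub : Glob b m k ⊆ Finset.univ.erase (Sum.inr (J0, c)) := by
    intro t ht
    obtain ⟨g, rfl⟩ := (mem_Glob t).1 ht
    simp
  rw [term_reduce hκ J0 c V hp.ge, sf_Zs_pow_full _ hsub (by rw [card_Glob, hp]), hp,
    mul_comm (V * Zs (Grp b J0) ^ (k - κ)), sf_groups]
  · have hset : ((Finset.univ.erase (Sum.inr (J0, c) : Idx b m k)) \ Glob b m k) \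
        (Finset.univ.erase J0).biUnion (fun J => Grp b J) = G' := by
      ext t
      rw [hG']
      simp only [Finset.mem_sdiff, Finset.mem_erase, Finset.mem_univ, and_true,
        Finset.mem_biUnion, mem_Glob, mem_Grp]
      cases t with
      | inl g => simp
      | inr q =>
        obtain ⟨J, c'⟩ := q
        constructor
        · rintro ⟨⟨h1, -⟩, h2⟩
          refine ⟨h1, c', ?_⟩
          by_cases hJ : J = J0
          · rw [hJ]
          · exact absurd ⟨J, hJ, c', rfl⟩ h2
        · rintro ⟨h1, c'', h2⟩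
          refine ⟨⟨h1, by simp⟩, ?_⟩
          rintro ⟨J', hJ', c3, h3⟩
          simp only [Sum.inr.injEq, Prod.mk.injEq] at h2 h3
          exact hJ' (h3.1 ▸ h2.1)
    rw [hset, mul_comm V, sf_Zs_pow_mul]
    have hinter : G' ∩ Grp b J0 = G' := Finset.inter_eq_left.2 (Finset.erase_subset _ _)
    rw [hinter, sum_powersetCard_compl G' (k - κ) (κ - 1) (by omega) (fun D => sf V D)]
    rw [Finset.card_erase_of_mem (Finset.mem_univ J0), Finset.card_univ, Fintype.card_fin]
    unfold c1
    push_cast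
    ring
  · intro J hJ t ht
    obtain ⟨c', rfl⟩ := (mem_Grp J t).1 ht
    have hne : J ≠ J0 := Finset.ne_of_mem_erase hJ
    simp [mem_Glob, hne]

/-- The derivative of the permanent of the gadget matrix, to leading order. -/
theorem lead {κ : ℕ} (hκ : 0 < κ) (hk : κ ≤ k) (hb : κ ≤ b) (i0 : Fin b) (J0 : Fin m)
    (c : Fin k) :
    sf ((∏ i ∈ Finset.univ.erase i0, (vrow i + Zs (Glob b m k))) * Qp b m k κ Finset.univ)
        (Finset.univ.erase (Sum.inr (J0, c))) +
      (c1 b m k κ : PR b m k) *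
        ∑ D ∈ ((Grp b J0).erase (Sum.inr (J0, c))).powersetCard (κ - 1),
          sf (∏ i ∈ Finset.univ.erase i0, (1 + vrow i)) D ∈
      idealOfVars (Pos b m k) ℂ ^ κ := by
  set s : Finset (Fin b) := Finset.univ.erase i0 with hs
  have hscard : s.card = b - 1 := by
    rw [hs, Finset.card_erase_of_mem (Finset.mem_univ i0), Finset.card_univ, Fintype.card_fin]
  rw [Finset.prod_add, Finset.sum_mul, sf_sum]
  have hG : ∑ D ∈ ((Grp b J0).erase (Sum.inr (J0, c) : Idx b m k)).powersetCard (κ - 1),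
      sf (∏ i ∈ s, (1 + vrow i)) D =
      ∑ A ∈ s.powerset, if A.card = κ - 1 then
        ∑ D ∈ ((Grp b J0).erase (Sum.inr (J0, c) : Idx b m k)).powersetCard (κ - 1),
          sf (∏ i ∈ A, vrow i) D else 0 := by
    rw [← Finset.sum_filter, ← Finset.powersetCard_eq_filter, Finset.sum_comm]
    apply Finset.sum_congr rfl
    intro D hD
    rw [sf_prod_one_add, (Finset.mem_powersetCard.1 hD).2]
  rw [hG, Finset.mul_sum, ← Finset.sum_add_distrib]
  apply Ideal.sum_mem
  intro A hA
  rw [Finset.mem_powerset] at hA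
  have hAcard : A.card ≤ b - 1 := hscard ▸ Finset.card_le_card hA
  have hcompl : (s \ A).card = b - 1 - A.card := by
    rw [Finset.card_sdiff_of_subset hA, hscard]
  rw [Finset.prod_const, hcompl]
  rcases lt_trichotomy (A.card + 1) κ with h | h | h
  · rw [term_small hκ J0 c _ (by omega), if_neg (by omega), mul_zero, add_zero]
    exact Ideal.zero_mem _
  · rw [term_main hκ hk J0 c _ (by omega), if_pos (by omega), neg_add_cancel]
    exact Ideal.zero_mem _
  · rw [if_neg (by omega), mul_zero, add_zero, mul_assoc]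
    exact Ideal.pow_le_pow_right (by omega) (sf_prod_vrow_mem A _ _)

end Pool.Agent.Work.MP_499dc6_lc.Deg
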