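import Pool.Agent.Work.MP_499dc6_lc.Bd.B13
import Pool.Agent.Work.MP_499dc6_lc.Bd.B12

set_option autoImplicit false
set_option linter.unusedSectionVars false
set_option synthInstance.maxSize 2000

/-! The gadget of `Gadget.Main` has the properties needed. -/

namespace Pool.Agent.Work.MP_499dc6_lc.Deg

open Submodule Module MvPolynomial Filter Topology
open Pool.Agent.Work.MP_499dc6_lc.Gadget

section entries

variable {R : Type*} [CommRing R] {Λ : Type*} [DecidableEq Λ]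

/-- Rows with all entries in a subgroup. -/
def rowsIn (Λ : Type*) (M : AddSubgroup R) : AddSubgroup (Λ → R) :=
  AddSubgroup.pi Set.univ (fun _ => M)

theorem mem_rowsIn {M : AddSubgroup R} {f : Λ → R} : f ∈ rowsIn Λ M ↔ ∀ c, f c ∈ M := by
  unfold rowsIn
  rw [AddSubgroup.mem_pi]
  simp

theorem single_mem_rowsIn {M : AddSubgroup R} (c : Λ) {a : R} (ha : a ∈ M) :
    Pi.single c a ∈ rowsIn Λ M := by
  rw [mem_rowsIn]
  intro c'
  by_cases h : c' = c
  · subst h
    rwa [Pi.single_eq_same]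
  · rw [Pi.single_eq_of_ne h]
    exact zero_mem _

theorem sideRow_mem [Fintype Λ] {A : Type*} [Fintype A] [DecidableEq A] {k L : ℕ}
    {M : AddSubgroup R} (h1 : (1 : R) ∈ M)
    (p : SideV A k L → Λ) {lam : R} (hlam : lam ∈ M)
    (v : A → Fin (k + 1) → Λ → R) (o : Fin L → A → Fin (k + 1) → Λ → R)
    (hv : ∀ a i, v a i ∈ rowsIn Λ M) (ho : ∀ l a i, o l a i ∈ rowsIn Λ M) (w : SideV A k L) :
    sideRow p lam v o w ∈ rowsIn Λ M := by
  have hs : ∀ c : Λ, Pi.single c (1 : R) ∈ rowsIn Λ M := fun c => single_mem_rowsIn c h1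
  rcases w with ((u | ⟨a, j⟩) | ⟨a, i⟩ | ⟨a, i⟩) | ⟨r, l⟩ | ⟨r, l⟩ | ⟨r, l⟩
  · exact add_mem (sum_mem fun a _ => hs _) (single_mem_rowsIn _ hlam)
  · refine Fin.lastCases ?_ (fun i => ?_) j
    · simp only [sideRow, Fin.lastCases_last]
      exact add_mem (hs _) (hs _)
    · simp only [sideRow, Fin.lastCases_castSucc]
      exact sub_mem (add_mem (hs _) (hs _)) (hs _)
  · exact add_mem (add_mem (hs _) (hs _)) (hs _)
  · exact add_mem (hs _) (hv _ _)
  · refine Fin.cases ?_ (fun l' => ?_) l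
    · simp only [sideRow, Fin.cases_zero]
      exact sub_mem (sub_mem (add_mem (hs _) (hs _)) (hs _)) (hs _)
    · simp only [sideRow, Fin.cases_succ]
      exact add_mem (add_mem (hs _) (hs _)) (hs _)
  · exact sub_mem (add_mem (add_mem (hs _) (hs _)) (ho _ _ _)) (hs _)
  · exact sub_mem (sub_mem (add_mem (hs _) (hs _)) (hs _)) (hs _)

variable {A B : Type*} [Fintype A] [DecidableEq A] [Fintype B] [DecidableEq B]
variable {ka kb L Sn κ : ℕ}

theorem vVec_mem {M : AddSubgroup R} (V : A × Fin (ka + 1) → B × Fin (kb + 1) → R)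
    (hV : ∀ r c, V r c ∈ M) (r : A × Fin (ka + 1)) :
    (vVec V r : GV A B ka kb L Sn κ → R) ∈ rowsIn (GV A B ka kb L Sn κ) M := by
  unfold vVec
  exact sum_mem fun c _ => single_mem_rowsIn _ (hV _ _)

theorem oVec_mem {M : AddSubgroup R} (h1 : (1 : R) ∈ M) (l : Fin L) :
    (oVec R A B ka kb L Sn κ l : GV A B ka kb L Sn κ → R) ∈
      rowsIn (GV A B ka kb L Sn κ) M := by
  unfold oVec
  exact sum_mem fun c _ => single_mem_rowsIn _ h1

theorem wVec_mem {M : AddSubgroup R} (h1 : (1 : R) ∈ M) :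
    (wVec R A B ka kb L Sn κ : GV A B ka kb L Sn κ → R) ∈
      rowsIn (GV A B ka kb L Sn κ) M := by
  unfold wVec
  exact sum_mem fun c _ => single_mem_rowsIn _ h1

theorem gVec_mem {M : AddSubgroup R} (β : Fin L → Fin Sn → Fin (kb + 1) → R) (g : Fin κ → R)
    (hβ : ∀ l s j q, β l s j * g q ∈ M) (l : Fin L) (j : Fin (kb + 1)) :
    (gVec A B ka β g l j : GV A B ka kb L Sn κ → R) ∈ rowsIn (GV A B ka kb L Sn κ) M := by
  unfold gVec
  exact sum_mem fun s _ => sum_mem fun q _ => single_mem_rowsIn _ (hβ _ _ _ _)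

theorem hubVec_mem {M : AddSubgroup R} (h1 : (1 : R) ∈ M)
    (α : Fin L → Fin Sn → Fin (ka + 1) → R) (hα : ∀ l s i, α l s i ∈ M)
    (w : Fin L × (Fin Sn × Fin κ)) :
    (hubVec B kb κ α w : GV A B ka kb L Sn κ → R) ∈ rowsIn (GV A B ka kb L Sn κ) M := by
  unfold hubVec
  exact add_mem (single_mem_rowsIn _ h1) (sum_mem fun r _ => single_mem_rowsIn _ (hα _ _ _))

theorem gadget_mem {M : AddSubgroup R} (h1 : (1 : R) ∈ M)
    (α : Fin L → Fin Sn → Fin (ka + 1) → R)
    (β : Fin L → Fin Sn → Fin (kb + 1) → R) (g : Fin κ → R)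
    (V : A × Fin (ka + 1) → B × Fin (kb + 1) → R) (lam : R) (hα : ∀ l s i, α l s i ∈ M)
    (hβ : ∀ l s j q, β l s j * g q ∈ M) (hV : ∀ r c, V r c ∈ M) (hlam : lam ∈ M)
    (w w' : GV A B ka kb L Sn κ) : gadget α β g V lam w w' ∈ M := by
  have h : (gadget α β g V lam w : GV A B ka kb L Sn κ → R) ∈
      rowsIn (GV A B ka kb L Sn κ) M := by
    rcases w with (w | w) | w
    · exact sideRow_mem h1 (fun w => (pA w : GV A B ka kb L Sn κ)) hlam
        (fun a i => vVec V (a, i)) (fun l _ _ => oVec R A B ka kb L Sn κ l)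
        (fun a i => vVec_mem V hV (a, i)) (fun l _ _ => oVec_mem h1 l) w
    · exact sideRow_mem h1 (fun w => (pB w : GV A B ka kb L Sn κ)) (zero_mem _)
        (fun _ _ => wVec R A B ka kb L Sn κ) (fun l _ j => gVec A B ka β g l j)
        (fun _ _ => wVec_mem h1) (fun l _ j => gVec_mem β g hβ l j) w
    · exact hubVec_mem h1 α hα w
  exact mem_rowsIn.1 h w'

theorem card_GV : Fintype.card (GV A B ka kb L Sn κ) =
    (1 + Fintype.card A * (ka + 2) + (Fintype.card A * (ka + 1) + Fintype.card A * (ka + 1)) +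
      (Fintype.card A * (ka + 1) * (L + 1) + (Fintype.card A * (ka + 1) * L +
        Fintype.card A * (ka + 1) * L))) +
    (1 + Fintype.card B * (kb + 2) + (Fintype.card B * (kb + 1) + Fintype.card B * (kb + 1)) +
      (Fintype.card B * (kb + 1) * (L + 1) + (Fintype.card B * (kb + 1) * L +
        Fintype.card B * (kb + 1) * L))) + L * (Sn * κ) := by
  simp only [Fintype.card_sum, Fintype.card_prod, Fintype.card_fin, Fintype.card_unit]

end entries

theorem gadgetStatement : GadgetStatement := by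
  intro m1 m2 ka κ hκ
  refine ⟨GV (Fin m1) (Fin m2) ka (2 * ka + 1) 1 (ka + 1) κ, inferInstance,
    inferInstance, ?_, ?_⟩
  · rw [card_GV]
    simp only [Fintype.card_fin]
    apply le_of_eq
    ring
  · intro t ht
    haveI : NeZero κ := ⟨hκ.ne'⟩
    obtain ⟨ζ, hζ⟩ : ∃ ζ : ℂ, IsPrimitiveRoot ζ κ :=
      ⟨_, Complex.isPrimitiveRoot_exp κ hκ.ne'⟩
    have hg : ∀ j, 0 < j → j < κ → hubN (fun q : Fin κ =>
        (C (ζ ^ (q : ℕ)) : MvPolynomial (Fv m1 m2 ka) ℂ)) j = 0 := by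
      intro j h0 h1
      have h2 := hubN_root hζ h0 h1
      have h3 : hubN (fun q : Fin κ => (C (ζ ^ (q : ℕ)) : MvPolynomial (Fv m1 m2 ka) ℂ)) j =
          C (hubN (fun q : Fin κ => ζ ^ (q : ℕ)) j) := by
        unfold hubN
        rw [map_sum]
        refine Finset.sum_congr rfl fun f _ => ?_
        split_ifs
        · rw [map_prod]
        · rw [map_zero]
      rw [h3, h2, map_zero]
    obtain ⟨rest, hrest, hperm⟩ := perm_gadget (κ := κ) (alphaF m1 m2 t)
      (betaF m1 m2 (kb := 2 * ka + 1) t)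
      (fun q : Fin κ => (C (ζ ^ (q : ℕ)) : MvPolynomial (Fv m1 m2 ka) ℂ)) (VF t) 0
      (idealOfVars (Fv m1 m2 ka) ℂ) (fun r c => VF_mem_ideal t r c) (by norm_num) hκ hg
    refine ⟨gadget (alphaF m1 m2 t) (betaF m1 m2 (kb := 2 * ka + 1) t)
      (fun q : Fin κ => (C (ζ ^ (q : ℕ)) : MvPolynomial (Fv m1 m2 ka) ℂ)) (VF t) 0,
      ((Fintype.card (Fin m1) : ℂ) + 0) * (Fintype.card (Fin m2) : ℂ) *
        2 ^ (1 * (Fintype.card (Fin m1) * (ka + 1) + Fintype.card (Fin m2) * (2 * ka + 1 + 1))),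
      (4 ^ κ * 2 ^ (1 * (Fintype.card (Fin m1) * (ka + 1) - κ)) *
        2 ^ (1 * (Fintype.card (Fin m2) * (2 * ka + 1 + 1) - κ)) * (κ.factorial : ℂ) ^ (1 + 1) *
        ((κ.factorial : ℂ) ^ 2 * ∏ q : Fin κ, ζ ^ (q : ℕ)) ^ 1), ?_, ?_, ?_⟩
    · intro i j
      apply gadget_mem (M := (L0 (Fv m1 m2 ka)).toAddSubgroup)
      · exact one_mem_L0
      · intro l s i
        exact C_mem_L0 _
      · intro l s j q
        show betaF m1 m2 t l s j * C (ζ ^ (q : ℕ)) ∈ L0 (Fv m1 m2 ka)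
        unfold betaF
        rw [← map_mul]
        exact C_mem_L0 _
      · intro r c
        exact VF_mem_L0 t r c
      · exact zero_mem _
    · have hκf : (κ.factorial : ℂ) ≠ 0 := Nat.cast_ne_zero.2 κ.factorial_ne_zero
      have hζ0 : ζ ≠ 0 := hζ.ne_zero hκ.ne'
      have hpr : (∏ q : Fin κ, ζ ^ (q : ℕ)) ≠ 0 := Finset.prod_ne_zero_iff.2 fun q _ =>
        pow_ne_zero _ hζ0
      refine mul_ne_zero (mul_ne_zero (mul_ne_zero (mul_ne_zero ?_ ?_) ?_) ?_) ?_
      · exact pow_ne_zero _ (by norm_num)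
      · exact pow_ne_zero _ (by norm_num)
      · exact pow_ne_zero _ (by norm_num)
      · exact pow_ne_zero _ hκf
      · exact pow_ne_zero _ (mul_ne_zero (pow_ne_zero _ hκf) hpr)
    · rw [hperm, gadget_sum ht]
      simp only [map_mul, map_add, map_pow, map_natCast, map_ofNat, map_prod, map_zero]
      convert hrest using 1
      ring

/-- **Border circuit lower bound.** -/
theorem border_main : ∀ᶠ n : ℕ in atTop,
    ∀ (S : ℕ) (f : ℕ → MvPolynomial (Fin n × Fin n) ℂ), (∀ j, ComputedWith (f j) S) →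
      (∀ m, Tendsto (fun j => coeff m (f j)) atTop
        (𝓝 (coeff m (Matrix.permanent (Matrix.of fun i j => X (i, j)))))) →
      (n : ℝ) ^ 2 * Real.log n / 1700 ≤ S := border_bound gadgetStatement

end Pool.Agent.Work.MP_499dc6_lc.Deg
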