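import Pool.Agent.Work.MP_499dc6_lc.Deg.Gadget

set_option autoImplicit false
set_option linter.unusedSectionVars false

/-! The ideal which makes the leading forms of the derivatives equal to powers of variables. -/

namespace Pool.Agent.Work.MP_499dc6_lc.Deg

open MvPolynomial

/-- Elementary symmetric sums over a finset. -/
def es {T A : Type*} [DecidableEq T] [CommRing A] (x : T → A) (j : ℕ) (S : Finset T) : A :=
  ∑ D ∈ S.powersetCard j, ∏ t ∈ D, x t

section Es

variable {T A : Type*} [DecidableEq T] [CommRing A] (x : T → A)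

theorem es_zero (S : Finset T) : es x 0 S = 1 := by
  simp [es]

theorem es_succ (j : ℕ) {S : Finset T} {c : T} (hc : c ∈ S) :
    es x (j + 1) S = es x (j + 1) (S.erase c) + x c * es x j (S.erase c) := by
  have hc' : c ∉ S.erase c := Finset.notMem_erase c S
  unfold es
  conv_lhs => rw [← Finset.insert_erase hc]
  rw [Finset.powersetCard_succ_insert hc', Finset.sum_union, Finset.mul_sum]
  · congr 1
    rw [Finset.sum_image]
    · apply Finset.sum_congr rfl
      intro D hD
      rw [Finset.prod_insert]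
      intro h
      exact hc' ((Finset.mem_powersetCard.1 hD).1 h)
    · intro D hD D' hD' h
      have h1 : c ∉ D := fun h' => hc' ((Finset.mem_powersetCard.1 hD).1 h')
      have h2 : c ∉ D' := fun h' => hc' ((Finset.mem_powersetCard.1 hD').1 h')
      rw [← Finset.erase_insert h1, ← Finset.erase_insert h2]
      exact congrArg (fun s => Finset.erase s c) h
  · rw [Finset.disjoint_left]
    intro D hD hD'
    obtain ⟨D'', _, rfl⟩ := Finset.mem_image.1 hD'
    exact hc' ((Finset.mem_powersetCard.1 hD).1 (Finset.mem_insert_self _ _))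

/-- If the elementary symmetric sums vanish modulo `I`, those with one variable removed are
powers of that variable. -/
theorem es_erase_mod (I : Ideal A) {S : Finset T} {c : T} (hc : c ∈ S) {n : ℕ}
    (hI : ∀ j, 1 ≤ j → j ≤ n → es x j S ∈ I) :
    ∀ j ≤ n, es x j (S.erase c) - (-x c) ^ j ∈ I := by
  intro j
  induction j with
  | zero =>
    intro _
    rw [es_zero, pow_zero, sub_self]
    exact I.zero_mem
  | succ j ih =>
    intro hj
    have h1 := hI (j + 1) (by omega) hj
    rw [es_succ x j hc] at h1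
    have h2 := ih (by omega)
    have h3 : es x (j + 1) (S.erase c) - (-x c) ^ (j + 1) =
        (es x (j + 1) (S.erase c) + x c * es x j (S.erase c)) -
          x c * (es x j (S.erase c) - (-x c) ^ j) := by
      rw [pow_succ]; ring
    rw [h3]
    exact I.sub_mem h1 (I.mul_mem_left _ h2)

end Es

variable {b m k : ℕ}

/-- The mean field quantities. -/
noncomputable def gD (s : Finset (Fin b)) (D : Finset (Idx b m k)) : PR b m k :=
  sf (∏ i ∈ s, (1 + vrow i)) D

theorem gD_empty (s : Finset (Fin b)) : gD s (∅ : Finset (Idx b m k)) = 1 := by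
  unfold gD
  rw [sf_prod_one_add, Finset.card_empty, Finset.powersetCard_zero, Finset.sum_singleton,
    Finset.prod_empty, sf_one, if_pos rfl]

theorem gD_insert (i : Fin b) (D : Finset (Idx b m k)) :
    gD Finset.univ D = gD (Finset.univ.erase i) D +
      ∑ t ∈ D, vf i t * gD (Finset.univ.erase i) (D.erase t) := by
  unfold gD
  rw [← Finset.mul_prod_erase Finset.univ (fun i => (1 + vrow i :
    MvPolynomial (Idx b m k) (PR b m k))) (Finset.mem_univ i), add_mul, one_mul, sf_add]
  congr 1
  nth_rewrite 1 [vrow]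
  rw [sf_sum_X_mul, Finset.inter_univ]

/-- Modulo the mean field quantities, those with one row removed are products. -/
theorem gD_erase_mod (I : Ideal (PR b m k)) (i : Fin b) (G : Finset (Idx b m k)) {n : ℕ}
    (hI : ∀ D ⊆ G, D.Nonempty → D.card ≤ n → gD Finset.univ D ∈ I) :
    ∀ (j : ℕ) (D : Finset (Idx b m k)), D ⊆ G → D.card = j → j ≤ n →
      gD (Finset.univ.erase i) D - (-1) ^ j * (j.factorial : PR b m k) * ∏ t ∈ D, vf i t ∈ I := by
  intro j
  induction j with
  | zero =>
    intro D _ hD _
    rw [Finset.card_eq_zero] at hD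
    subst hD
    rw [gD_empty]
    simp
  | succ j ih =>
    intro D hDG hD hj
    have hne : D.Nonempty := Finset.card_pos.1 (by omega)
    have h1 := hI D hDG hne (by omega)
    rw [gD_insert i D] at h1
    have h2 : ∀ t ∈ D, vf i t * (gD (Finset.univ.erase i) (D.erase t) -
        (-1) ^ j * (j.factorial : PR b m k) * ∏ t ∈ D.erase t, vf i t) ∈ I := by
      intro t ht
      apply I.mul_mem_left
      exact ih (D.erase t) ((Finset.erase_subset _ _).trans hDG)
        (by rw [Finset.card_erase_of_mem ht, hD, Nat.add_sub_cancel]) (by omega)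
    have h3 := I.sub_mem h1 (Ideal.sum_mem I h2)
    have h4 : ∑ t ∈ D, vf i t * (gD (Finset.univ.erase i) (D.erase t) -
        (-1) ^ j * (j.factorial : PR b m k) * ∏ t ∈ D.erase t, vf i t) =
        ∑ t ∈ D, vf i t * gD (Finset.univ.erase i) (D.erase t) -
          (-1) ^ j * ((j + 1).factorial : PR b m k) * ∏ t ∈ D, vf i t := by
      have h5 : ∀ t ∈ D, vf i t * (gD (Finset.univ.erase i) (D.erase t) -
        (-1) ^ j * (j.factorial : PR b m k) * ∏ t ∈ D.erase t, vf i t) =
        vf i t * gD (Finset.univ.erase i) (D.erase t) -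
          (-1) ^ j * (j.factorial : PR b m k) * ∏ t ∈ D, vf i t := by
        intro t ht
        rw [← Finset.mul_prod_erase D (fun t => vf i t) ht]
        ring
      rw [Finset.sum_congr rfl h5, Finset.sum_sub_distrib, Finset.sum_const, hD, nsmul_eq_mul,
        Nat.factorial_succ]
      push_cast
      ring
    rw [h4] at h3
    convert h3 using 1
    rw [pow_succ]
    ring

/-- The key congruence. -/
theorem lead_mod {κ : ℕ} (I : Ideal (PR b m k)) (i0 : Fin b) (J0 : Fin m)
    (c : Fin k)
    (hI1 : ∀ D ⊆ Grp b J0, D.Nonempty → D.card ≤ κ - 1 → gD Finset.univ D ∈ I)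
    (hI2 : ∀ j, 1 ≤ j → j ≤ κ - 1 → es (vf i0) j (Grp b J0) ∈ I) :
    (∑ D ∈ ((Grp b J0).erase (Sum.inr (J0, c))).powersetCard (κ - 1),
        gD (Finset.univ.erase i0) D) -
      ((κ - 1).factorial : PR b m k) * X (i0, (J0, c)) ^ (κ - 1) ∈ I := by
  have hmem : (Sum.inr (J0, c) : Idx b m k) ∈ Grp b J0 := (mem_Grp J0 _).2 ⟨c, rfl⟩
  have h1 := es_erase_mod (vf i0) I hmem hI2 (κ - 1) le_rfl
  have h2 : ∀ D ∈ ((Grp b J0).erase (Sum.inr (J0, c))).powersetCard (κ - 1),
      gD (Finset.univ.erase i0) D - (-1) ^ (κ - 1) * ((κ - 1).factorial : PR b m k) *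
        ∏ t ∈ D, vf i0 t ∈ I := by
    intro D hD
    rw [Finset.mem_powersetCard] at hD
    exact gD_erase_mod I i0 (Grp b J0) hI1 (κ - 1) D (hD.1.trans (Finset.erase_subset _ _)) hD.2
      le_rfl
  have h3 := Ideal.sum_mem I h2
  rw [Finset.sum_sub_distrib, ← Finset.mul_sum] at h3
  have h4 := I.add_mem h3 (I.mul_mem_left ((-1) ^ (κ - 1) * ((κ - 1).factorial : PR b m k)) h1)
  unfold es at h4
  convert h4 using 1
  have h5 : (vf i0 (Sum.inr (J0, c)) : PR b m k) = X (i0, (J0, c)) := rfl
  rw [h5, neg_pow (X (i0, (J0, c)) : PR b m k)]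
  have h6 : ((-1 : PR b m k) ^ (κ - 1)) * (-1) ^ (κ - 1) = 1 := by
    rw [← mul_pow]; simp
  linear_combination (((κ - 1).factorial : PR b m k) * X (i0, (J0, c)) ^ (κ - 1)) * h6

end Pool.Agent.Work.MP_499dc6_lc.Deg
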