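import Pool.Agent.Work.MP_499dc6_lc.Bd.B11

set_option autoImplicit false

/-! The asymptotic form of the bound. -/

namespace Pool.Agent.Work.MP_499dc6_lc.Deg

open MvPolynomial Submodule Filter

/-- A clean consequence of the bound. -/
theorem clean_bound {b m κ n s : ℕ} (hn : n = b + m * (16 * κ)) (hκ : 3 ≤ κ)
    (hb : 2 ^ (16 * κ) ≤ b) {L : Submodule ℂ (MvPolynomial (Fin n × Fin n) ℂ)}
    (hL : Reach (L0 (Fin n × Fin n)) s L) (hf : permPoly (Fin n) ∈ L) :
    (κ - 1) ^ (15 * (b * (m * κ))) ≤ 2 ^ (3 * s) := by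
  have hκb : κ ≤ b := by
    have h1 : κ < 2 ^ κ := Nat.lt_two_pow_self
    have h2 : 2 ^ κ ≤ 2 ^ (16 * κ) := Nat.pow_le_pow_right (by norm_num) (by omega)
    omega
  have h := perm_bound hn hκ (by omega) hκb hL hf
  refine le_trans (Nat.pow_le_pow_right (by omega) ?_) h
  apply Nat.le_sub_of_add_le
  have h1 : m * 2 ^ (16 * κ) ≤ m * b := Nat.mul_le_mul_left m hb
  obtain ⟨c, rfl⟩ : ∃ c, κ = c + 1 := ⟨κ - 1, by omega⟩
  rw [Nat.add_sub_cancel]
  calc 15 * (b * (m * (c + 1))) + (m * 2 ^ (16 * (c + 1)) + b * (m * c))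
      ≤ 15 * (b * (m * (c + 1))) + (m * b + b * (m * c)) := by omega
    _ = b * (m * (16 * (c + 1))) := by ring

theorem main_aux {n s : ℕ} (h1 : 2000 ≤ Real.log n) (h2 : 100 ≤ Real.log (Real.log n))
    (h3 : Real.log n ≤ 0.01 * n)
    {L : Submodule ℂ (MvPolynomial (Fin n × Fin n) ℂ)}
    (hL : Reach (L0 (Fin n × Fin n)) s L) (hf : permPoly (Fin n) ∈ L) :
    (n : ℝ) ^ 2 * Real.log (Real.log n) / 10 ≤ s := by
  have hlog2 : Real.log 2 < 0.6931471808 := Real.log_two_lt_d9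
  have hlog2' : 0.6931471803 < Real.log 2 := Real.log_two_gt_d9
  have hn0 : 0 < n := by
    rcases Nat.eq_zero_or_pos n with rfl | h
    · simp at h1; linarith
    · exact h
  have hnR : (200000 : ℝ) ≤ n := by nlinarith
  have hnR0 : (0 : ℝ) < n := by linarith
  have hn2 : 200000 ≤ n := by exact_mod_cast hnR
  set κ : ℕ := Nat.log 2 (n / 2) / 16 with hκdef
  set m : ℕ := n / (2 * (16 * κ)) with hm
  set b : ℕ := n - m * (16 * κ) with hbdef
  -- size of `κ`
  have hhalf : n / 2 ≠ 0 := by omega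
  have hlogn : Real.log n < (Nat.log 2 (n / 2) + 2 : ℕ) * Real.log 2 := by
    have h4 : n / 2 < 2 ^ (Nat.log 2 (n / 2) + 1) := Nat.lt_pow_succ_log_self (by norm_num) _
    have h5 : n < 2 ^ (Nat.log 2 (n / 2) + 2) := by
      rw [pow_succ]
      omega
    have h6 : (n : ℝ) < 2 ^ (Nat.log 2 (n / 2) + 2) := by exact_mod_cast h5
    have h7 := Real.log_lt_log hnR0 h6
    rwa [Real.log_pow] at h7
  have hκlow : Real.log n / 17 ≤ (κ : ℝ) - 1 := by
    have h4 : Nat.log 2 (n / 2) < 16 * (κ + 1) := by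
      rw [hκdef]; omega
    have h5 : (Nat.log 2 (n / 2) + 2 : ℕ) ≤ 16 * κ + 17 := by omega
    have h6 : ((Nat.log 2 (n / 2) + 2 : ℕ) : ℝ) ≤ 16 * κ + 17 := by exact_mod_cast h5
    nlinarith
  have hκ3 : 3 ≤ κ := by
    have : (3 : ℝ) ≤ κ := by linarith
    exact_mod_cast this
  have hκup : (16 * κ : ℕ) ≤ Nat.log 2 (n / 2) := by rw [hκdef]; omega
  have hpow : 2 ^ (16 * κ) ≤ n / 2 :=
    (Nat.pow_le_pow_right (by norm_num) hκup).trans (Nat.pow_log_le_self 2 hhalf)
  have hmk : m * (16 * κ) ≤ n / 2 := by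
    rw [Nat.le_div_iff_mul_le (by norm_num)]
    have := Nat.div_mul_le_self n (2 * (16 * κ))
    rw [← hm] at this
    calc m * (16 * κ) * 2 = m * (2 * (16 * κ)) := by ring
      _ ≤ n := this
  have hb : 2 ^ (16 * κ) ≤ b := by omega
  have hn : n = b + m * (16 * κ) := by omega
  have hκR : (16 * κ : ℝ) ≤ 0.0145 * n := by
    have h4 : (2 : ℝ) ^ (16 * κ) ≤ n := by
      have : 2 ^ (16 * κ) ≤ n := by omega
      exact_mod_cast this
    have h5 := Real.log_le_log (by positivity) h4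
    rw [Real.log_pow] at h5
    push_cast at h5
    have h6 : (0 : ℝ) ≤ κ := Nat.cast_nonneg _
    nlinarith
  have hbR : (n : ℝ) / 2 ≤ b := by
    have h4 : n ≤ 2 * b := by omega
    have h5 : (n : ℝ) ≤ 2 * b := by exact_mod_cast h4
    linarith
  have hmR : ((n : ℝ) / 2 - 16 * κ) / 16 ≤ m * κ := by
    have h4 : n < (m + 1) * (2 * (16 * κ)) := by
      rw [hm]
      exact (Nat.div_lt_iff_lt_mul (by omega)).1 (Nat.lt_succ_self _)
    have h5 : (n : ℝ) < (m + 1) * (2 * (16 * κ)) := by exact_mod_cast h4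
    nlinarith
  have hclean := clean_bound hn hκ3 hb hL hf
  have hclean' : ((κ - 1 : ℕ) : ℝ) ^ (15 * (b * (m * κ))) ≤ 2 ^ (3 * s) := by
    exact_mod_cast hclean
  have hκ1 : ((κ - 1 : ℕ) : ℝ) = κ - 1 := by
    rw [Nat.cast_sub (by omega)]; norm_num
  rw [hκ1] at hclean'
  have hκ1pos : (0 : ℝ) < κ - 1 := by
    have : (3 : ℝ) ≤ κ := by exact_mod_cast hκ3
    linarith
  have hlogc := Real.log_le_log (by positivity) hclean'
  rw [Real.log_pow, Real.log_pow] at hlogc
  push_cast at hlogc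
  -- lower bound for `log (κ - 1)`
  have hlogκ : 0.94 * Real.log (Real.log n) ≤ Real.log (κ - 1) := by
    have h4 : Real.log (Real.log n / 17) ≤ Real.log (κ - 1) :=
      Real.log_le_log (by positivity) hκlow
    rw [Real.log_div (by linarith) (by norm_num)] at h4
    have h5 : Real.log 17 ≤ 5 * Real.log 2 := by
      rw [← Real.log_rpow (by norm_num)]
      apply Real.log_le_log (by norm_num)
      norm_num
    nlinarith
  have hE : 0.2273 * (n : ℝ) ^ 2 ≤ 15 * (b * (m * κ)) := by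
    have h4 : 0.0303 * (n : ℝ) ≤ m * κ := by linarith
    have h5 : (n : ℝ) / 2 * (0.0303125 * n) ≤ b * (m * κ) := by
      have h6 : 0.0303125 * (n : ℝ) ≤ m * κ := by linarith
      exact mul_le_mul hbR h6 (by positivity) (by positivity)
    nlinarith
  have hy : (0 : ℝ) < Real.log (Real.log n) := by linarith
  have h8 : 0.2273 * (n : ℝ) ^ 2 * (0.94 * Real.log (Real.log n)) ≤
      15 * (b * (m * κ)) * Real.log (κ - 1) :=
    mul_le_mul hE hlogκ (by positivity) (by positivity)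
  have hs0 : (0 : ℝ) ≤ s := Nat.cast_nonneg _
  have h9 : 3 * (s : ℝ) * Real.log 2 ≤ 3 * s * 0.6931471808 := by
    apply mul_le_mul_of_nonneg_left hlog2.le (by positivity)
  have h10 : 0.2273 * (n : ℝ) ^ 2 * (0.94 * Real.log (Real.log n)) ≤
      3 * s * 0.6931471808 := h8.trans (hlogc.trans h9)
  have hpos : (0 : ℝ) ≤ (n : ℝ) ^ 2 * Real.log (Real.log n) := by positivity
  linarith

/-- Superlinear lower bound for the permanent. -/
theorem main : ∀ᶠ n : ℕ in atTop, ∀ (s : ℕ) (f : Fin s → MvPolynomial (Fin n × Fin n) ℂ)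
    (N : Finset (Fin s)), IsCircuit f N →
    ∀ o, f o = Matrix.permanent (Matrix.of fun i j => X (i, j)) →
      (n : ℝ) ^ 2 * Real.log (Real.log n) / 10 ≤ N.card := by
  have t1 : Tendsto (fun n : ℕ => Real.log n) atTop atTop :=
    Real.tendsto_log_atTop.comp tendsto_natCast_atTop_atTop
  have t2 : Tendsto (fun n : ℕ => Real.log (Real.log n)) atTop atTop :=
    Real.tendsto_log_atTop.comp t1
  have t3 : ∀ᶠ n : ℕ in atTop, Real.log n ≤ 0.01 * n := by
    have h := (Real.isLittleO_log_id_atTop.bound (c := 0.01) (by norm_num))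
    have h' := tendsto_natCast_atTop_atTop (R := ℝ) |>.eventually h
    filter_upwards [h', t1.eventually_ge_atTop 0] with n hn hn0
    simp only [id_eq, Real.norm_eq_abs, Nat.abs_cast] at hn
    exact (le_abs_self _).trans hn
  filter_upwards [t1.eventually_ge_atTop 2000, t2.eventually_ge_atTop 100, t3] with n h1 h2 h3
  intro s f N hf o ho
  obtain ⟨L, hL, hmem⟩ := hf.reach_all
  refine main_aux h1 h2 h3 hL ?_
  have := hmem o
  rw [ho] at this
  exact this

end Pool.Agent.Work.MP_499dc6_lc.Deg
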