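import Mathlib

set_option autoImplicit false
set_option linter.unusedSectionVars false

/-! Squarefree coefficients. -/

namespace Pool.Agent.Work.MP_499dc6_lc.Deg

open MvPolynomial

variable {T R : Type*} [DecidableEq T] [CommRing R]

/-- The exponent vector of the squarefree monomial of `C`. -/
noncomputable def ind (C : Finset T) : T →₀ ℕ := ∑ t ∈ C, Finsupp.single t 1

theorem ind_apply (C : Finset T) (t : T) : ind C t = if t ∈ C then 1 else 0 := by
  unfold ind
  rw [Finsupp.finsetSum_apply]
  simp only [Finsupp.single_apply]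
  rw [Finset.sum_ite_eq']

theorem ind_erase {C : Finset T} {t : T} (ht : t ∈ C) :
    ind C - Finsupp.single t 1 = ind (C.erase t) := by
  ext s
  rw [Finsupp.tsub_apply, ind_apply, ind_apply, Finsupp.single_apply]
  by_cases hs : t = s
  · subst hs
    simp [ht]
  · have : s ≠ t := fun h => hs h.symm
    simp [hs, this, Finset.mem_erase]

/-- The coefficient of the squarefree monomial of `C`. -/
noncomputable def sf (P : MvPolynomial T R) (C : Finset T) : R := coeff (ind C) P

theorem sf_add (P Q : MvPolynomial T R) (C : Finset T) : sf (P + Q) C = sf P C + sf Q C :=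
  coeff_add _ _ _

theorem sf_sum {ι : Type*} (s : Finset ι) (P : ι → MvPolynomial T R) (C : Finset T) :
    sf (∑ i ∈ s, P i) C = ∑ i ∈ s, sf (P i) C :=
  coeff_sum _ _ _

theorem sf_C_mul (r : R) (P : MvPolynomial T R) (D : Finset T) : sf (C r * P) D = r * sf P D :=
  coeff_C_mul _ _ _

theorem sf_neg (P : MvPolynomial T R) (C : Finset T) : sf (-P) C = - sf P C :=
  coeff_neg _ _ _

theorem sf_zero (C : Finset T) : sf (0 : MvPolynomial T R) C = 0 := coeff_zero _

theorem sf_one (C : Finset T) : sf (1 : MvPolynomial T R) C = if C = ∅ then 1 else 0 := by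
  unfold sf
  rw [coeff_one]
  congr 1
  apply propext
  constructor
  · intro h
    by_contra hne
    obtain ⟨t, ht⟩ := Finset.nonempty_iff_ne_empty.2 hne
    have := congrArg (fun f : T →₀ ℕ => f t) h
    simp [ind_apply, ht] at this
  · rintro rfl
    ext s
    simp [ind_apply]

theorem sf_X_mul (t : T) (P : MvPolynomial T R) (C : Finset T) :
    sf (X t * P) C = if t ∈ C then sf P (C.erase t) else 0 := by
  unfold sf
  rw [coeff_X_mul']
  have h : t ∈ (ind C).support ↔ t ∈ C := by
    rw [Finsupp.mem_support_iff, ind_apply]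
    by_cases ht : t ∈ C <;> simp [ht]
  by_cases ht : t ∈ C
  · rw [if_pos (h.2 ht), if_pos ht, ind_erase ht]
  · rw [if_neg (fun h' => ht (h.1 h')), if_neg ht]

theorem sf_sum_X_mul (f : T → R) (Y : Finset T) (P : MvPolynomial T R) (D : Finset T) :
    sf ((∑ t ∈ Y, C (f t) * X t) * P) D = ∑ t ∈ D ∩ Y, f t * sf P (D.erase t) := by
  rw [Finset.sum_mul, sf_sum]
  have : ∀ t ∈ Y, sf (C (f t) * X t * P) D =
      if t ∈ D then f t * sf P (D.erase t) else 0 := by
    intro t _
    rw [mul_assoc, sf_C_mul, sf_X_mul]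
    split_ifs <;> simp
  rw [Finset.sum_congr rfl this, ← Finset.sum_filter]
  apply Finset.sum_congr _ (fun _ _ => rfl)
  ext t
  simp only [Finset.mem_filter, Finset.mem_inter]
  tauto

/-- The sum of the variables of `Y`. -/
noncomputable def Zs (Y : Finset T) : MvPolynomial T R := ∑ t ∈ Y, X t

theorem sf_Zs_mul (Y : Finset T) (P : MvPolynomial T R) (D : Finset T) :
    sf (Zs Y * P) D = ∑ t ∈ D ∩ Y, sf P (D.erase t) := by
  have := sf_sum_X_mul (fun _ => (1 : R)) Y P D
  simpa [Zs] using this

theorem sf_Zs_pow_mul (Y : Finset T) (P : MvPolynomial T R) (j : ℕ) :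
    ∀ C : Finset T, sf (Zs Y ^ j * P) C =
      (j.factorial : R) * ∑ D ∈ (C ∩ Y).powersetCard j, sf P (C \ D) := by
  induction j with
  | zero => intro C; simp
  | succ j ih =>
    intro C
    rw [pow_succ', mul_assoc, sf_Zs_mul]
    simp only [ih]
    rw [← Finset.mul_sum, Nat.factorial_succ, Nat.cast_mul, mul_comm ((j + 1 : ℕ) : R), mul_assoc]
    congr 1
    have h1 : ((j + 1 : ℕ) : R) * ∑ D ∈ (C ∩ Y).powersetCard (j + 1), sf P (C \ D) =
        ∑ D ∈ (C ∩ Y).powersetCard (j + 1), ∑ _t ∈ D, sf P (C \ D) := by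
      rw [Finset.mul_sum]
      apply Finset.sum_congr rfl
      intro D hD
      rw [Finset.mem_powersetCard] at hD
      rw [Finset.sum_const, hD.2, nsmul_eq_mul]
    rw [h1, Finset.sum_sigma', Finset.sum_sigma']
    refine Finset.sum_bij' (fun x _ => ⟨insert x.1 x.2, x.1⟩) (fun x _ => ⟨x.2, x.1.erase x.2⟩)
      ?_ ?_ ?_ ?_ ?_
    · rintro ⟨t, D⟩ h
      simp only [Finset.mem_sigma, Finset.mem_powersetCard] at h ⊢
      obtain ⟨ht, hD, hc⟩ := h
      have htD : t ∉ D := fun h' => by
        have := hD h'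
        simp at this
      refine ⟨⟨?_, ?_⟩, Finset.mem_insert_self _ _⟩
      · intro s hs
        rcases Finset.mem_insert.1 hs with rfl | hs
        · exact ht
        · have := hD hs
          simp only [Finset.mem_inter, Finset.mem_erase] at this ⊢
          exact ⟨this.1.2, this.2⟩
      · rw [Finset.card_insert_of_notMem htD, hc]
    · rintro ⟨D, t⟩ h
      simp only [Finset.mem_sigma, Finset.mem_powersetCard] at h ⊢
      obtain ⟨⟨hD, hc⟩, ht⟩ := h
      refine ⟨hD ht, ?_, ?_⟩
      · intro s hs
        have h1 := Finset.mem_erase.1 hs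
        have h2 := hD h1.2
        simp only [Finset.mem_inter, Finset.mem_erase] at h2 ⊢
        exact ⟨⟨h1.1, h2.1⟩, h2.2⟩
      · rw [Finset.card_erase_of_mem ht, hc, Nat.add_sub_cancel]
    · rintro ⟨t, D⟩ h
      simp only [Finset.mem_sigma, Finset.mem_powersetCard] at h ⊢
      obtain ⟨ht, hD, hc⟩ := h
      have htD : t ∉ D := fun h' => by
        have := hD h'
        simp at this
      simp [Finset.erase_insert htD]
    · rintro ⟨D, t⟩ h
      simp only [Finset.mem_sigma, Finset.mem_powersetCard] at h ⊢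
      obtain ⟨⟨hD, hc⟩, ht⟩ := h
      simp [Finset.insert_erase ht]
    · rintro ⟨t, D⟩ h
      simp only [Finset.mem_sigma, Finset.mem_powersetCard] at h ⊢
      congr 1
      ext s
      simp only [Finset.mem_sdiff, Finset.mem_erase, Finset.mem_insert]
      tauto

theorem sf_Zs_pow_eq_zero {Y : Finset T} (P : MvPolynomial T R) {j : ℕ} {C : Finset T}
    (h : (C ∩ Y).card < j) : sf (Zs Y ^ j * P) C = 0 := by
  rw [sf_Zs_pow_mul, Finset.powersetCard_eq_empty.2 h, Finset.sum_empty, mul_zero]

theorem sf_Zs_pow_full {Y : Finset T} (P : MvPolynomial T R) {j : ℕ} {C : Finset T}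
    (hY : Y ⊆ C) (h : Y.card = j) : sf (Zs Y ^ j * P) C = (j.factorial : R) * sf P (C \ Y) := by
  rw [sf_Zs_pow_mul, Finset.inter_eq_right.2 hY, ← h, Finset.powersetCard_self,
    Finset.sum_singleton]

variable [Fintype T]

/-- The permanent as a squarefree coefficient. -/
theorem perm_eq_sf (M : T → T → R) :
    ∑ σ : Equiv.Perm T, ∏ i, M i (σ i) =
      sf (∏ i, ∑ j, C (M i j) * X j) Finset.univ := by
  rw [Finset.prod_univ_sum, sf_sum]
  have hterm : ∀ f : T → T, sf (∏ i, (C (M i (f i)) * X (f i) : MvPolynomial T R)) Finset.univ =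
      if Function.Bijective f then ∏ i, M i (f i) else 0 := by
    intro f
    rw [Finset.prod_mul_distrib, ← map_prod, sf_C_mul]
    have h1 : (∏ i, X (f i) : MvPolynomial T R) = monomial (∑ i, Finsupp.single (f i) 1) 1 := by
      rw [monomial_sum_one]
      rfl
    rw [h1]
    unfold sf
    rw [coeff_monomial]
    by_cases hf : Function.Bijective f
    · rw [if_pos hf, if_pos, mul_one]
      unfold ind
      exact (Equiv.ofBijective f hf).sum_comp (fun t => (Finsupp.single t 1 : T →₀ ℕ))
    · rw [if_neg hf, if_neg, mul_zero]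
      intro h
      apply hf
      rw [← Finite.surjective_iff_bijective]
      intro t
      by_contra hne
      push Not at hne
      have h2 := congrArg (fun g : T →₀ ℕ => g t) h
      simp only [ind_apply, Finset.mem_univ, if_true] at h2
      rw [Finsupp.finsetSum_apply] at h2
      have : ∀ i ∈ Finset.univ, (Finsupp.single (f i) 1 : T →₀ ℕ) t = 0 := by
        intro i _
        rw [Finsupp.single_apply, if_neg (hne i)]
      rw [Finset.sum_eq_zero this] at h2
      exact zero_ne_one h2
  simp only [hterm]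
  rw [← Finset.sum_filter]
  symm
  refine Finset.sum_bij' (fun f hf => Equiv.ofBijective f (Finset.mem_filter.1 hf).2)
    (fun σ _ => σ) ?_ ?_ ?_ ?_ ?_
  · intro f hf; exact Finset.mem_univ _
  · intro σ _
    rw [Finset.mem_filter]
    exact ⟨by simp, σ.bijective⟩
  · intro f hf; rfl
  · intro σ _; ext i; rfl
  · intro f hf; rfl

end Pool.Agent.Work.MP_499dc6_lc.Deg
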